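import Pool.Agent.Helper28.Ram.Goals

/-!
# Packet NLEV: the evaluation of a node
-/

namespace Pool.Agent.Helper31.Ram

open Pool.Agent.Helper65.LinSpace Pool.Agent.Helper78.Mpc Finset
open Pool.Agent.Helper28.Ram Pool.Agent.Helper28.Ram.Mach

set_option linter.unusedSectionVars false

section

variable (m : Mach) {p : ℕ} [Fact p.Prime]

lemma hr_congr (hb : 0 < m.b) (a v : ℕ) (h : ZMod p) (X X' : ℕ → ℕ → ZMod p) (i : ℕ)
    (hX : ∀ i' ≤ i, ∀ o, X i' o = X' i' o) :
    ∀ n ≤ (i + 1) * m.b, m.hr p a v h X n = m.hr p a v h X' n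
  | 0, _ => rfl
  | e + 1, hn => by
    have h1 : e / m.b ≤ i := by
      have : e / m.b < i + 1 := by
        rw [Nat.div_lt_iff_lt_mul hb]
        omega
      omega
    have ih := hr_congr hb a v h X X' i hX e (by omega)
    simp only [Mach.hr]
    rw [ih]
    have e1 : (fun o => X (e / m.b) (m.σ + 2 * m.σ * (e % m.b) + o)) =
        (fun o => X' (e / m.b) (m.σ + 2 * m.σ * (e % m.b) + o)) := by
      funext o; exact hX _ h1 _
    have e2 : (fun o => X (e / m.b) (m.σ + 2 * m.σ * (e % m.b) + m.σ + o)) =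
        (fun o => X' (e / m.b) (m.σ + 2 * m.σ * (e % m.b) + m.σ + o)) := by
      funext o; exact hX _ h1 _
    rw [e1, e2]

lemma fct_congr (i a y r : ℕ) (D : ℕ → ZMod p) (X X' : ℕ → ℕ → ZMod p) (hr : r < m.b)
    (hX : ∀ i' < i, ∀ o, X i' o = X' i' o) :
    m.fct p i a y r D X = m.fct p i a y r D X' := by
  unfold Mach.fct
  have e1 : (if i = 0 then D else X (i - 1)) = (if i = 0 then D else X' (i - 1)) := by
    split_ifs with h
    · rfl
    · funext o; exact hX _ (by omega) _
  rw [e1]
  congr 1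
  apply hr_congr m (by omega) _ _ _ _ _ i
  · intro i' hi' o
    split_ifs with h
    · rfl
    · exact hX _ (by omega) _
  · rw [Nat.succ_mul]; omega

lemma P_congr (k i a : ℕ) (X X' : ℕ → ℕ → ZMod p) (o : ℕ)
    (hX : ∀ i' < i, ∀ o, X i' o = X' i' o) : m.P p k i a X o = m.P p k i a X' o := by
  unfold Mach.P
  refine Finset.sum_congr rfl (fun y _ => ?_)
  congr 1
  refine Finset.prod_congr rfl (fun r hr => ?_)
  exact fct_congr m i a y r _ X X' (Finset.mem_range.1 hr) hX

/-- the effect of a call of the level below, on the registers. -/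
def callR (k h1 a : ℕ) (c i g : ℕ) (R : ℕ → ℕ → ZMod p) : ℕ → ℕ → ZMod p :=
  if c = 2 ∧ i ≤ m.G then addR i (fun o => -(sgz p g * m.P p k i a R o)) R
  else if c = 1 ∧ i < h1 then addR i (fun o => sgz p g * m.V p k i a o) R
  else R

/-- the other components are the same. -/
def Same (l : ℕ) (s t : St p) : Prop :=
  s.qa = t.qa ∧ s.ac = t.ac ∧ s.sv = t.sv ∧
    ∀ k, l + 1 ≤ k → s.md k = t.md k ∧ s.nd k = t.nd k ∧ s.sg k = t.sg k

lemma Same.refl (l : ℕ) (s : St p) : Same l s s := ⟨rfl, rfl, rfl, fun _ _ => ⟨rfl, rfl, rfl⟩⟩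

lemma Same.trans {l : ℕ} {s t u : St p} (h : Same l s t) (h' : Same l t u) : Same l s u :=
  ⟨h.1.trans h'.1, h.2.1.trans h'.2.1, h.2.2.1.trans h'.2.2.1, fun k hk =>
    ⟨(h.2.2.2 k hk).1.trans (h'.2.2.2 k hk).1, (h.2.2.2 k hk).2.1.trans (h'.2.2.2 k hk).2.1,
      (h.2.2.2 k hk).2.2.trans (h'.2.2.2 k hk).2.2⟩⟩

lemma same_call (l : ℕ) (s : St p) (c i g : ℕ) : Same l s (s.call l c i g) := by
  refine ⟨rfl, rfl, rfl, fun k hk => ?_⟩
  simp only [St.call]
  rw [Function.update_of_ne (by omega), Function.update_of_ne (by omega),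
    Function.update_of_ne (by omega)]
  exact ⟨rfl, rfl, rfl⟩

lemma same_R (l : ℕ) (s : St p) (R : ℕ → ℕ → ZMod p) : Same l s { s with R := R } :=
  ⟨rfl, rfl, rfl, fun _ _ => ⟨rfl, rfl, rfl⟩⟩

lemma ideal_call (l : ℕ) (s : St p) (c i g : ℕ) :
    Same (l + 1) s (m.ideal (l + 1) (s.call (l + 1) c i g)) ∧
      (m.ideal (l + 1) (s.call (l + 1) c i g)).R =
        callR m (l / (m.G + 2)) (l % (m.G + 2)) (s.qa (l / (m.G + 2) + 1)) c i g s.R := by
  have h1 : (s.call (l + 1) c i g).md (l + 1) = c := by simp [St.call]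
  have h2 : (s.call (l + 1) c i g).nd (l + 1) = i := by simp [St.call]
  have h3 : (s.call (l + 1) c i g).sg (l + 1) = g := by simp [St.call]
  have h4 : (s.call (l + 1) c i g).qa = s.qa := rfl
  have h5 : (s.call (l + 1) c i g).R = s.R := rfl
  simp only [Mach.ideal, h1, h2, h3, h4, h5]
  unfold callR
  split_ifs
  · exact ⟨(same_call (l + 1) s c i g).trans (same_R _ _ _), rfl⟩
  · exact ⟨(same_call (l + 1) s c i g).trans (same_R _ _ _), rfl⟩
  · exact ⟨same_call (l + 1) s c i g, rfl⟩

/-- the effect of the operation `j` on the registers in the mode `1`. -/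
def stepR (k i g a j : ℕ) (R : ℕ → ℕ → ZMod p) : ℕ → ℕ → ZMod p :=
  if j % (2 * m.G + 3) = 0 then scaR i ((j / (2 * m.G + 3) + 1 : ℕ) : ZMod p) R
  else if j % (2 * m.G + 3) ≤ m.G then
    if j % (2 * m.G + 3) - 1 < i then
      addR (j % (2 * m.G + 3) - 1) (fun o => m.V p k (j % (2 * m.G + 3) - 1) a o) R
    else R
  else if j % (2 * m.G + 3) = m.G + 1 then addR i (fun o => -(sgz p g * m.P p k i a R o)) R
  else if j % (2 * m.G + 3) ≤ 2 * m.G + 1 then
    if j % (2 * m.G + 3) - (m.G + 2) < i then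
      addR (j % (2 * m.G + 3) - (m.G + 2))
        (fun o => -m.V p k (j % (2 * m.G + 3) - (m.G + 2)) a o) R
    else R
  else scaR i ((j / (2 * m.G + 3) + 1 : ℕ) : ZMod p)⁻¹ R

lemma sgz_zero : sgz p 0 = 1 := by simp [sgz]

lemma sgz_one : sgz p 1 = -1 := by simp [sgz]

lemma callR_zero (k h1 a : ℕ) (R : ℕ → ℕ → ZMod p) : callR m k h1 a 0 0 0 R = R := by
  unfold callR
  rw [if_neg (by omega), if_neg (by omega)]

lemma step_one (l : ℕ) (h0 : (l + 1) % (m.G + 2) ≠ 0) (s : St p) (hm : s.md (l + 2) = 1)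
    (hn : s.nd (l + 2) < (l + 1) % (m.G + 2)) (j : ℕ) :
    Same (l + 1) s (m.ideal (l + 1) (m.op (l + 1) j s)) ∧
      (m.ideal (l + 1) (m.op (l + 1) j s)).R =
        stepR m ((l + 1) / (m.G + 2)) (s.nd (l + 2)) (s.sg (l + 2))
          (s.qa ((l + 1) / (m.G + 2) + 1)) j s.R := by
  have hk : l / (m.G + 2) = (l + 1) / (m.G + 2) := by
    rw [Nat.succ_div, if_neg (by rw [Nat.dvd_iff_mod_eq_zero]; exact h0)]
    rfl
  have hh : l % (m.G + 2) + 1 = (l + 1) % (m.G + 2) := by
    have e1 := Nat.div_add_mod l (m.G + 2)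
    have e2 := Nat.div_add_mod (l + 1) (m.G + 2)
    rw [hk] at e1
    omega
  have hG : (l + 1) % (m.G + 2) < m.G + 2 := Nat.mod_lt _ (by omega)
  unfold Mach.op stepR
  rw [if_neg h0]
  unfold Mach.opN
  rw [if_pos ⟨hm, hn⟩]
  set u := j % (2 * m.G + 3) with hu
  by_cases c0 : u = 0
  · rw [if_pos c0, if_pos c0]
    obtain ⟨q1, q2⟩ := ideal_call m l
      ({ s with R := scaR (s.nd (l + 2)) ((j / (2 * m.G + 3) + 1 : ℕ) : ZMod p) s.R } : St p) 0 0 0
    refine ⟨(same_R _ s _).trans q1, ?_⟩
    rw [q2, callR_zero]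
  · rw [if_neg c0, if_neg c0]
    by_cases c1 : u ≤ m.G
    · rw [if_pos c1, if_pos c1]
      by_cases c2 : u - 1 < s.nd (l + 2)
      · rw [if_pos c2, if_pos c2]
        obtain ⟨q1, q2⟩ := ideal_call m l s 1 (u - 1) 0
        refine ⟨q1, ?_⟩
        rw [q2, hk]
        unfold callR
        rw [if_neg (by omega), if_pos (by omega), sgz_zero]
        simp only [one_mul]
      · rw [if_neg c2, if_neg c2]
        obtain ⟨q1, q2⟩ := ideal_call m l s 0 0 0
        exact ⟨q1, by rw [q2, callR_zero]⟩
    · rw [if_neg c1, if_neg c1]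
      by_cases c3 : u = m.G + 1
      · rw [if_pos c3, if_pos c3]
        obtain ⟨q1, q2⟩ := ideal_call m l s 2 (s.nd (l + 2)) (s.sg (l + 2))
        refine ⟨q1, ?_⟩
        rw [q2, hk]
        unfold callR
        rw [if_pos ⟨rfl, by omega⟩]
      · rw [if_neg c3, if_neg c3]
        by_cases c4 : u ≤ 2 * m.G + 1
        · rw [if_pos c4, if_pos c4]
          by_cases c5 : u - (m.G + 2) < s.nd (l + 2)
          · rw [if_pos c5, if_pos c5]
            obtain ⟨q1, q2⟩ := ideal_call m l s 1 (u - (m.G + 2)) 1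
            refine ⟨q1, ?_⟩
            rw [q2, hk]
            unfold callR
            rw [if_neg (by omega), if_pos (by omega), sgz_one]
            simp only [neg_mul, one_mul]
          · rw [if_neg c5, if_neg c5]
            obtain ⟨q1, q2⟩ := ideal_call m l s 0 0 0
            exact ⟨q1, by rw [q2, callR_zero]⟩
        · rw [if_neg c4, if_neg c4]
          obtain ⟨q1, q2⟩ := ideal_call m l
            ({ s with R := scaR (s.nd (l + 2)) ((j / (2 * m.G + 3) + 1 : ℕ) : ZMod p)⁻¹ s.R } :
              St p) 0 0 0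
          refine ⟨(same_R _ s _).trans q1, ?_⟩
          rw [q2, callR_zero]

/-- add `c` times the true values to the regions `< n`, `< i`. -/
def addV (k i a : ℕ) (c : ZMod p) (n : ℕ) (R : ℕ → ℕ → ZMod p) : ℕ → ℕ → ZMod p :=
  fun i' o => if i' < i ∧ i' < n then R i' o + c * m.V p k i' a o else R i' o

lemma iter_addV (k i a : ℕ) (c : ZMod p) (f : ℕ → (ℕ → ℕ → ZMod p) → (ℕ → ℕ → ZMod p)) :
    ∀ n, (∀ u < n, ∀ R, f u R = if u < i then addR u (fun o => c * m.V p k u a o) R else R) →
      ∀ R, iter f n R = addV m k i a c n R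
  | 0, _, R => by
    show R = _
    funext i' o
    unfold addV
    rw [if_neg (by omega)]
  | n + 1, hf, R => by
    show f n (iter f n R) = _
    rw [iter_addV k i a c f n (fun u hu => hf u (by omega)) R, hf n (by omega)]
    by_cases h : n < i
    · rw [if_pos h]
      funext i' o
      unfold addV addR
      by_cases h1 : i' = n
      · subst h1
        simp [h]
      · by_cases h2 : i' < i ∧ i' < n
        · rw [if_neg h1]
          beta_reduce
          rw [if_pos h2, if_pos (by omega)]
        · rw [if_neg h1]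
          beta_reduce
          rw [if_neg h2, if_neg (by omega)]
    · rw [if_neg h]
      funext i' o
      unfold addV
      by_cases h2 : i' < i ∧ i' < n
      · rw [if_pos h2, if_pos (by omega)]
      · rw [if_neg h2, if_neg (by omega)]

/-- one round. -/
lemma round_eq (k i g a : ℕ) (hi : i ≤ m.G) (w : ℕ) (hw : ((w + 1 : ℕ) : ZMod p) ≠ 0)
    (R : ℕ → ℕ → ZMod p) :
    iter (fun u => stepR m k i g a (w * (2 * m.G + 3) + u)) (2 * m.G + 3) R =
      addR i (fun o => -(sgz p g * m.P p k i a
        (fun i' o => ((w + 1 : ℕ) : ZMod p) * R i' o + m.V p k i' a o) o)) R := by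
  have hmod : ∀ u < 2 * m.G + 3, (w * (2 * m.G + 3) + u) % (2 * m.G + 3) = u := by
    intro u hu
    rw [Nat.mul_comm, Nat.mul_add_mod, Nat.mod_eq_of_lt hu]
  have hdiv : ∀ u < 2 * m.G + 3, (w * (2 * m.G + 3) + u) / (2 * m.G + 3) = w := by
    intro u hu
    rw [Nat.mul_comm, Nat.mul_add_div (by omega), Nat.div_eq_of_lt hu]
    rfl
  have e : 2 * m.G + 3 = 1 + m.G + 1 + m.G + 1 := by ring
  conv_lhs => rw [show iter (fun u => stepR m k i g a (w * (2 * m.G + 3) + u)) (2 * m.G + 3) R =
    iter (fun u => stepR m k i g a (w * (2 * m.G + 3) + u)) (1 + m.G + 1 + m.G + 1) R by rw [← e]]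
  rw [iter_add, iter_add, iter_add, iter_add]
  -- the first operation
  have s1 : iter (fun u => stepR m k i g a (w * (2 * m.G + 3) + u)) 1 R =
      scaR i ((w + 1 : ℕ) : ZMod p) R := by
    show stepR m k i g a (w * (2 * m.G + 3) + 0) R = _
    unfold stepR
    rw [hmod 0 (by omega), hdiv 0 (by omega), if_pos rfl]
  rw [s1]
  have s2 : ∀ R : ℕ → ℕ → ZMod p, iter (fun u => stepR m k i g a (w * (2 * m.G + 3) + (1 + u))) m.G R =
      addV m k i a 1 m.G R := by
    intro R
    apply iter_addV
    intro u hu R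
    unfold stepR
    rw [hmod (1 + u) (by omega), if_neg (by omega), if_pos (by omega)]
    rw [show 1 + u - 1 = u by omega]
    simp only [one_mul]
  rw [s2]
  have s3 : ∀ R : ℕ → ℕ → ZMod p, iter (fun u => stepR m k i g a (w * (2 * m.G + 3) + (1 + m.G + u))) 1 R =
      addR i (fun o => -(sgz p g * m.P p k i a R o)) R := by
    intro R
    show stepR m k i g a (w * (2 * m.G + 3) + (1 + m.G + 0)) R = _
    unfold stepR
    rw [hmod (1 + m.G + 0) (by omega), if_neg (by omega), if_neg (by omega), if_pos (by omega)]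
  rw [s3]
  have s4 : ∀ R : ℕ → ℕ → ZMod p, iter (fun u => stepR m k i g a (w * (2 * m.G + 3) + (1 + m.G + 1 + u))) m.G R =
      addV m k i a (-1) m.G R := by
    intro R
    apply iter_addV
    intro u hu R
    unfold stepR
    rw [hmod (1 + m.G + 1 + u) (by omega), if_neg (by omega), if_neg (by omega), if_neg (by omega),
      if_pos (by omega)]
    rw [show 1 + m.G + 1 + u - (m.G + 2) = u by omega]
    simp only [neg_mul, one_mul]
  rw [s4]
  have s5 : ∀ R : ℕ → ℕ → ZMod p, iter (fun u => stepR m k i g a (w * (2 * m.G + 3) + (1 + m.G + 1 + m.G + u))) 1 R =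
      scaR i ((w + 1 : ℕ) : ZMod p)⁻¹ R := by
    intro R
    show stepR m k i g a (w * (2 * m.G + 3) + (1 + m.G + 1 + m.G + 0)) R = _
    unfold stepR
    rw [hmod (1 + m.G + 1 + m.G + 0) (by omega), hdiv (1 + m.G + 1 + m.G + 0) (by omega),
      if_neg (by omega), if_neg (by omega), if_neg (by omega), if_neg (by omega)]
  rw [s5]
  funext i' o
  have hP : ∀ o, m.P p k i a (addV m k i a 1 m.G (scaR i ((w + 1 : ℕ) : ZMod p) R)) o =
      m.P p k i a (fun i' o => ((w + 1 : ℕ) : ZMod p) * R i' o + m.V p k i' a o) o := by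
    intro o
    apply P_congr
    intro i' hi' o
    unfold addV scaR
    rw [if_pos (by omega), if_pos hi', one_mul]
  by_cases h1 : i' < i
  · simp only [scaR, addV, addR]
    rw [if_pos h1, if_pos (show i' < i ∧ i' < m.G by omega), if_neg (by omega),
      if_pos (show i' < i ∧ i' < m.G by omega), if_pos h1, if_neg (by omega)]
    field_simp
    ring
  · simp only [scaR, addV, addR]
    rw [if_neg h1, if_neg (show ¬ (i' < i ∧ i' < m.G) by omega)]
    by_cases h2 : i' = i
    · rw [if_pos h2, if_pos h2, if_neg (show ¬ (i' < i ∧ i' < m.G) by omega), if_neg h1]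
      exact congrArg (fun z => R i' o + -(sgz p g * z)) (hP o)
    · rw [if_neg h2, if_neg h2, if_neg (show ¬ (i' < i ∧ i' < m.G) by omega), if_neg h1]

/-- all rounds. -/
lemma rounds (k i g a : ℕ) (R : ℕ → ℕ → ZMod p) :
    ∀ n, iter (fun w R => addR i (fun o => -(sgz p g * m.P p k i a
        (fun i' o => ((w + 1 : ℕ) : ZMod p) * R i' o + m.V p k i' a o) o)) R) n R =
      addR i (fun o => -(sgz p g * ∑ w ∈ range n, m.P p k i a
        (fun i' o => ((w + 1 : ℕ) : ZMod p) * R i' o + m.V p k i' a o) o)) R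
  | 0 => by
    show R = _
    funext i' o
    simp [addR]
  | n + 1 => by
    show addR i _ (iter _ n R) = _
    rw [rounds k i g a R n]
    funext i' o
    simp only [addR]
    by_cases h : i' = i
    · rw [if_pos h, if_pos h, if_pos h, Finset.sum_range_succ]
      have hP : m.P p k i a (fun i' o => ((n + 1 : ℕ) : ZMod p) * (if i' = i then
          R i' o + -(sgz p g * ∑ w ∈ range n, m.P p k i a
            (fun i' o => ((w + 1 : ℕ) : ZMod p) * R i' o + m.V p k i' a o) o) else R i' o) +
            m.V p k i' a o) o = m.P p k i a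
            (fun i' o => ((n + 1 : ℕ) : ZMod p) * R i' o + m.V p k i' a o) o := by
        apply P_congr
        intro i'' hi'' o
        rw [if_neg (by omega)]
      rw [hP]
      ring
    · rw [if_neg h, if_neg h, if_neg h]

end

theorem NLEV (hLINE : LINE_stmt) (hTRUTH : TRUTH_stmt) : NLEV_stmt := by
  intro m p _ hok hp l hl s
  obtain ⟨l, rfl⟩ : ∃ l', l = l' + 1 := ⟨l - 1, by
    have : l ≠ 0 := by rintro rfl; simp at hl
    omega⟩
  have hcnt : m.cnt p (l + 1) = (p - 1) * (2 * m.G + 3) := by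
    unfold Mach.cnt ifz
    rw [if_neg hl]
  have hp2 : 0 < p - 1 := by omega
  have hhG : (l + 1) % (m.G + 2) < m.G + 2 := Nat.mod_lt _ (by omega)
  have agree_of : ∀ t : St p, Same (l + 1) s t → t.R = (m.ideal (l + 2) s).R →
      m.Agree (l + 1 + 1) t (m.ideal (l + 1 + 1) s) := by
    intro t ht hR
    have hid : Same (l + 1) s (m.ideal (l + 2) s) := by
      simp only [Mach.ideal]
      split_ifs
      · exact same_R _ _ _
      · exact same_R _ _ _
      · exact Same.refl _ _
    refine ⟨hR, ?_, ?_⟩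
    · intro k hk
      have a1 := ht.2.2.2 k hk
      have a2 := hid.2.2.2 k hk
      exact ⟨a1.1.symm.trans a2.1, a1.2.1.symm.trans a2.2.1, a1.2.2.symm.trans a2.2.2⟩
    · intro k _
      refine ⟨?_, ?_, ?_⟩
      · exact congrFun (ht.1.symm.trans hid.1) k
      · exact congrFun (ht.2.1.symm.trans hid.2.1) k
      · exact congrFun (ht.2.2.1.symm.trans hid.2.2.1) k
  by_cases hA : s.md (l + 2) = 2 ∧ s.nd (l + 2) ≤ m.G
  · -- mode 2
    have hk : l / (m.G + 2) = (l + 1) / (m.G + 2) := by
      rw [Nat.succ_div, if_neg (by rw [Nat.dvd_iff_mod_eq_zero]; exact hl)]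
      rfl
    have key : ∀ n, 0 < n → Same (l + 1) s (iter (fun j s => m.ideal (l + 1) (m.op (l + 1) j s)) n s) ∧
        (iter (fun j s => m.ideal (l + 1) (m.op (l + 1) j s)) n s).R = (m.ideal (l + 2) s).R := by
      intro n hn
      induction n with
      | zero => omega
      | succ n ih =>
        show Same (l + 1) s (m.ideal (l + 1) (m.op (l + 1) n (iter _ n s))) ∧
          (m.ideal (l + 1) (m.op (l + 1) n (iter _ n s))).R = _
        rcases Nat.eq_zero_or_pos n with h0 | h0
        · subst h0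
          show Same (l + 1) s (m.ideal (l + 1) (m.op (l + 1) 0 s)) ∧
            (m.ideal (l + 1) (m.op (l + 1) 0 s)).R = _
          have e1 : m.op (l + 1) 0 s = s.call (l + 1) 2 (s.nd (l + 2)) (s.sg (l + 2)) := by
            unfold Mach.op
            rw [if_neg hl]
            unfold Mach.opN
            rw [if_neg (by rintro ⟨h, -⟩; rw [hA.1] at h; omega), if_pos ⟨hA.1, hA.2, rfl⟩]
          rw [e1]
          obtain ⟨q1, q2⟩ := ideal_call m l s 2 (s.nd (l + 2)) (s.sg (l + 2))
          refine ⟨q1, ?_⟩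
          rw [q2]
          unfold callR
          rw [if_pos ⟨rfl, hA.2⟩]
          simp only [Mach.ideal]
          rw [if_pos hA, hk]
        · obtain ⟨i1, i2⟩ := ih h0
          set t := iter (fun j s => m.ideal (l + 1) (m.op (l + 1) j s)) n s with ht
          have hmt : t.md (l + 2) = 2 := by rw [← (i1.2.2.2 (l + 2) (by omega)).1]; exact hA.1
          have e1 : m.op (l + 1) n t = t.call (l + 1) 0 0 0 := by
            unfold Mach.op
            rw [if_neg hl]
            unfold Mach.opN
            rw [if_neg (by rintro ⟨h, -⟩; rw [hmt] at h; omega), if_neg (by rintro ⟨-, -, h⟩; omega)]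
          rw [e1]
          obtain ⟨q1, q2⟩ := ideal_call m l t 0 0 0
          refine ⟨i1.trans q1, ?_⟩
          rw [q2, callR_zero, i2]
    obtain ⟨k1, k2⟩ := key (m.cnt p (l + 1)) (by rw [hcnt]; positivity)
    exact agree_of _ k1 k2
  · by_cases hB : s.md (l + 2) = 1 ∧ s.nd (l + 2) < (l + 1) % (m.G + 2)
    · -- mode 1
      set k := (l + 1) / (m.G + 2) with hk
      set i := s.nd (l + 2) with hi
      set g := s.sg (l + 2) with hg
      set a := s.qa (k + 1) with ha
      have key : ∀ n, Same (l + 1) s (iter (fun j s => m.ideal (l + 1) (m.op (l + 1) j s)) n s) ∧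
          (iter (fun j s => m.ideal (l + 1) (m.op (l + 1) j s)) n s).R =
            iter (stepR m k i g a) n s.R := by
        intro n
        induction n with
        | zero => exact ⟨Same.refl _ _, rfl⟩
        | succ n ih =>
          obtain ⟨i1, i2⟩ := ih
          show Same (l + 1) s (m.ideal (l + 1) (m.op (l + 1) n (iter _ n s))) ∧
            (m.ideal (l + 1) (m.op (l + 1) n (iter _ n s))).R =
              stepR m k i g a n (iter (stepR m k i g a) n s.R)
          set t := iter (fun j s => m.ideal (l + 1) (m.op (l + 1) j s)) n s with ht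
          have j1 := i1.2.2.2 (l + 2) (by omega)
          have j2 := congrFun i1.1 (k + 1)
          have := step_one m l hl t (by rw [← j1.1]; exact hB.1) (by rw [← j1.2.1]; exact hB.2) n
          rw [← j1.2.1, ← j1.2.2, ← hk, ← j2, i2] at this
          exact ⟨i1.trans this.1, this.2⟩
      obtain ⟨k1, k2⟩ := key (m.cnt p (l + 1))
      refine agree_of _ k1 ?_
      rw [k2, hcnt, iter_mul]
      have hiG : i ≤ m.G := by omega
      have e1 : iter (fun d => iter (fun u => stepR m k i g a (d * (2 * m.G + 3) + u))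
          (2 * m.G + 3)) (p - 1) s.R =
          iter (fun w R => addR i (fun o => -(sgz p g * m.P p k i a
            (fun i' o => ((w + 1 : ℕ) : ZMod p) * R i' o + m.V p k i' a o) o)) R) (p - 1) s.R := by
        apply iter_congr
        intro w hw R
        apply round_eq m k i g a hiG w
        intro h0
        rw [ZMod.natCast_eq_zero_iff] at h0
        have := Nat.le_of_dvd (by omega) h0
        omega
      rw [e1, rounds]
      simp only [Mach.ideal]
      rw [if_neg hA, if_pos hB]
      congr 1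
      funext o
      rw [hLINE m p hp k i a s.R (m.V p k · a) o hiG]
      have h2 := hTRUTH m p hok k i a o hiG
      rw [h2]
      ring
    · -- nothing happens
      have key : ∀ n, Same (l + 1) s (iter (fun j s => m.ideal (l + 1) (m.op (l + 1) j s)) n s) ∧
          (iter (fun j s => m.ideal (l + 1) (m.op (l + 1) j s)) n s).R = s.R := by
        intro n
        induction n with
        | zero => exact ⟨Same.refl _ _, rfl⟩
        | succ n ih =>
          obtain ⟨i1, i2⟩ := ih
          show Same (l + 1) s (m.ideal (l + 1) (m.op (l + 1) n (iter _ n s))) ∧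
            (m.ideal (l + 1) (m.op (l + 1) n (iter _ n s))).R = _
          set t := iter (fun j s => m.ideal (l + 1) (m.op (l + 1) j s)) n s with ht
          have j1 := i1.2.2.2 (l + 2) (by omega)
          have e1 : m.op (l + 1) n t = t.call (l + 1) 0 0 0 := by
            unfold Mach.op
            rw [if_neg hl]
            unfold Mach.opN
            rw [if_neg (by rw [← j1.1, ← j1.2.1]; exact hB),
              if_neg (by rw [← j1.1, ← j1.2.1]; exact fun h => hA ⟨h.1, h.2.1⟩)]
          rw [e1]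
          obtain ⟨q1, q2⟩ := ideal_call m l t 0 0 0
          refine ⟨i1.trans q1, ?_⟩
          rw [q2, callR_zero, i2]
      obtain ⟨k1, k2⟩ := key (m.cnt p (l + 1))
      refine agree_of _ k1 ?_
      rw [k2]
      simp only [Mach.ideal]
      rw [if_neg hA, if_neg hB]

end Pool.Agent.Helper31.Ram
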